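import Mathlib

/-!
# Every Steiner loop is a quotient of a Steiner loop in which associativity propagates

The cover is the free Steiner loop, built from normal forms. In it `x (y z) = (x y) z` holds only
in the trivial cases, in which `x, y, z` lie in `{1, p, q, p q}` for two elements `p, q`: otherwise
the six points `x, y, z, x y, y z, x (y z)` would carry four triples (a Pasch configuration), but
the longest of these six normal forms is the product of two others in two different ways.
-/

set_option autoImplicit false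

namespace Pool.Agent.Results.MP_b3a441_al.FreeSteinerCover

universe u

/-- A Steiner loop: `1` is an identity, `x y = y x` and `x (x y) = y`. (Hence it is a loop:
`a x = b` has the unique solution `x = a b`; see `IsSteinerLoop.isLoop`.) -/
structure IsSteinerLoop (L : Type u) [Mul L] [One L] : Prop where
  one_mul : ∀ x : L, 1 * x = x
  mul_comm : ∀ x y : L, x * y = y * x
  mul_mul : ∀ x y : L, x * (x * y) = y

/-- A Steiner loop is a loop. -/
theorem IsSteinerLoop.isLoop {L : Type u} [Mul L] [One L] (h : IsSteinerLoop L) :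
    (∀ x : L, 1 * x = x ∧ x * 1 = x) ∧ (∀ a b : L, ∃! x, a * x = b) ∧
      ∀ a b : L, ∃! y, y * a = b := by
  refine ⟨fun x => ⟨h.one_mul x, by rw [h.mul_comm, h.one_mul]⟩, fun a b => ?_, fun a b => ?_⟩
  · refine ⟨a * b, h.mul_mul a b, fun y hy => ?_⟩
    subst hy
    exact (h.mul_mul a y).symm
  · refine ⟨a * b, by simpa [h.mul_comm (a * b) a] using h.mul_mul a b, fun y hy => ?_⟩
    subst hy
    simpa [h.mul_comm y a] using (h.mul_mul a y).symm

/-- The subloop generated by a set `S` of elements of a Steiner loop (in a Steiner loop both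
divisions coincide with the multiplication, so it is the smallest set that contains `1` and `S` and
is closed under multiplication). -/
inductive Generated {L : Type u} [Mul L] [One L] (S : Set L) : L → Prop
  | base {x : L} (hx : x ∈ S) : Generated S x
  | one : Generated S 1
  | mul {x y : L} (hx : Generated S x) (hy : Generated S y) : Generated S (x * y)

/-- Associativity propagates in `L`: if `x (y z) = (x y) z` then the subloop generated by
`x, y, z` is associative. -/
def AssociativityPropagates (L : Type u) [Mul L] [One L] : Prop :=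
  ∀ x y z : L, x * (y * z) = (x * y) * z →
    ∀ a b c : L, Generated {x, y, z} a → Generated {x, y, z} b → Generated {x, y, z} c →
      a * (b * c) = (a * b) * c

section Klein

variable {L : Type u} [Mul L] [One L] (h : IsSteinerLoop L)

include h

theorem sq (x : L) : x * x = 1 := by
  have := h.mul_mul x 1
  rwa [h.mul_comm x 1, h.one_mul] at this

theorem mul_one' (x : L) : x * 1 = x := by rw [h.mul_comm, h.one_mul]

omit h in
/-- The elements of the subloop generated by `p` and `q`. -/
def kl (p q : L) : Bool × Bool → L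
  | (false, false) => 1
  | (true, false) => p
  | (false, true) => q
  | (true, true) => p * q

theorem kl_mul (p q : L) (s t : Bool × Bool) :
    kl p q s * kl p q t = kl p q (xor s.1 t.1, xor s.2 t.2) := by
  have e1 : p * p = 1 := sq h p
  have e2 : q * q = 1 := sq h q
  have e3 : (p * q) * (p * q) = 1 := sq h _
  have e4 : p * (p * q) = q := h.mul_mul p q
  have e5 : q * (p * q) = p := by rw [h.mul_comm p q]; exact h.mul_mul q p
  have e6 : (p * q) * p = q := by rw [h.mul_comm]; exact e4
  have e7 : (p * q) * q = p := by rw [h.mul_comm]; exact e5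
  have e8 : q * p = p * q := h.mul_comm q p
  obtain ⟨s1, s2⟩ := s
  obtain ⟨t1, t2⟩ := t
  cases s1 <;> cases s2 <;> cases t1 <;> cases t2 <;>
    simp [kl, e1, e2, e3, e4, e5, e6, e7, e8, h.one_mul, mul_one' h]

theorem assoc_of_kl {x y z p q : L} (hx : ∃ s, x = kl p q s) (hy : ∃ s, y = kl p q s)
    (hz : ∃ s, z = kl p q s) (a b c : L) (ha : Generated {x, y, z} a)
    (hb : Generated {x, y, z} b) (hc : Generated {x, y, z} c) : a * (b * c) = (a * b) * c := by
  have key : ∀ a, Generated {x, y, z} a → ∃ s, a = kl p q s := by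
    intro a ha
    induction ha with
    | base hx' =>
      rcases hx' with rfl | rfl | rfl
      · exact hx
      · exact hy
      · exact hz
    | one => exact ⟨(false, false), rfl⟩
    | mul _ _ ih1 ih2 =>
      obtain ⟨s, rfl⟩ := ih1
      obtain ⟨t, rfl⟩ := ih2
      exact ⟨_, kl_mul h p q s t⟩
  obtain ⟨s, rfl⟩ := key a ha
  obtain ⟨t, rfl⟩ := key b hb
  obtain ⟨r, rfl⟩ := key c hc
  rw [kl_mul h, kl_mul h, kl_mul h, kl_mul h]
  simp

end Klein

/-! ## Normal forms -/

/-- Binary trees with leaves in `α`. -/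
inductive Tr (α : Type u) : Type u
  | of : α → Tr α
  | node : Tr α → Tr α → Tr α

namespace Tr

variable {α : Type u}

/-- Some linear order on the type of all trees. -/
noncomputable instance : LinearOrder (Tr α) :=
  @linearOrderOfSTO _ WellOrderingRel _ (Classical.decRel _)

/-- Number of vertices. -/
def size : Tr α → ℕ
  | of _ => 1
  | node a b => size a + size b + 1

/-- The product of the unordered pair `{a, b}`. -/
noncomputable def pr (a b : Tr α) : Tr α := node (min a b) (max a b)

theorem pr_comm (a b : Tr α) : pr a b = pr b a := by rw [pr, pr, min_comm, max_comm]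

theorem pr_of_lt {a b : Tr α} (h : a < b) : pr a b = node a b := by
  rw [pr, min_eq_left h.le, max_eq_right h.le]

theorem pr_inj {a b c d : Tr α} (h : pr a b = pr c d) : (a = c ∧ b = d) ∨ (a = d ∧ b = c) := by
  simp only [pr, node.injEq] at h
  obtain ⟨h1, h2⟩ := h
  rcases le_total a b with ab | ab <;> rcases le_total c d with cd | cd
  · rw [min_eq_left ab, min_eq_left cd] at h1
    rw [max_eq_right ab, max_eq_right cd] at h2
    exact Or.inl ⟨h1, h2⟩
  · rw [min_eq_left ab, min_eq_right cd] at h1
    rw [max_eq_right ab, max_eq_left cd] at h2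
    exact Or.inr ⟨h1, h2⟩
  · rw [min_eq_right ab, min_eq_left cd] at h1
    rw [max_eq_left ab, max_eq_right cd] at h2
    exact Or.inr ⟨h2, h1⟩
  · rw [min_eq_right ab, min_eq_right cd] at h1
    rw [max_eq_left ab, max_eq_left cd] at h2
    exact Or.inl ⟨h2, h1⟩

theorem size_pr (a b : Tr α) : size (pr a b) = size a + size b + 1 := by
  rcases le_total a b with ab | ab
  · rw [pr, min_eq_left ab, max_eq_right ab, size]
  · rw [pr, min_eq_right ab, max_eq_left ab, size]; omega

theorem size_pos (a : Tr α) : 0 < size a := by cases a <;> simp [size]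

/-- `b` is a factor of `a`. -/
def Fac (a b : Tr α) : Prop := ∃ u, a = pr b u

/-- Normal trees: every vertex is the product of two different normal trees, none of which is a
factor of the other one. -/
def Normal : Tr α → Prop
  | of _ => True
  | node a b => a < b ∧ Normal a ∧ Normal b ∧ ¬ Fac a b ∧ ¬ Fac b a

theorem normal_pr {a b : Tr α} : Normal (pr a b) ↔
    a ≠ b ∧ Normal a ∧ Normal b ∧ ¬ Fac a b ∧ ¬ Fac b a := by
  rcases lt_trichotomy a b with h | h | h
  · rw [pr_of_lt h, Normal]
    exact ⟨fun H => ⟨h.ne, H.2⟩, fun H => ⟨h, H.2⟩⟩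
  · subst h
    simp [pr, Normal]
  · rw [pr_comm, pr_of_lt h, Normal]
    constructor
    · rintro ⟨h0, h1, h2, h3, h4⟩
      exact ⟨h.ne', h2, h1, h4, h3⟩
    · rintro ⟨h0, h1, h2, h3, h4⟩
      exact ⟨h, h2, h1, h4, h3⟩

end Tr

open Tr

/-- The points: normal trees. -/
def Pt (α : Type u) : Type u := {t : Tr α // t.Normal}

variable {α : Type u}

/-- `c` is the product of the different points `a` and `b`. -/
def Top (a b c : Pt α) : Prop := c.1 = pr a.1 b.1

theorem Top.symm {a b c : Pt α} (h : Top a b c) : Top b a c := by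
  unfold Top at *
  rw [h, pr_comm]

theorem Top.ne {a b c : Pt α} (h : Top a b c) : a ≠ b := by
  rintro rfl
  have := c.2
  rw [h, normal_pr] at this
  exact this.1 rfl

theorem Top.size {a b c : Pt α} (h : Top a b c) : c.1.size = a.1.size + b.1.size + 1 := by
  rw [h, size_pr]

/-- The triples: one of the three points is the product of the other two. -/
def Blk (a b c : Pt α) : Prop := Top a b c ∨ Top b c a ∨ Top a c b

theorem Blk.swap {a b c : Pt α} (h : Blk a b c) : Blk b a c := by
  rcases h with h | h | h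
  · exact Or.inl h.symm
  · exact Or.inr (Or.inr h)
  · exact Or.inr (Or.inl h)

theorem Blk.rot {a b c : Pt α} (h : Blk a b c) : Blk b c a := by
  rcases h with h | h | h
  · exact Or.inr (Or.inr h.symm)
  · exact Or.inl h
  · exact Or.inr (Or.inl h.symm)

theorem Blk.ne {a b c : Pt α} (h : Blk a b c) : a ≠ b := by
  rintro rfl
  have h1 := size_pos a.1
  have h2 := size_pos c.1
  rcases h with h | h | h
  · exact h.ne rfl
  · have := h.size; omega
  · have := h.size; omega

theorem blk_exists {a b : Pt α} (hab : a ≠ b) : ∃ c, Blk a b c := by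
  by_cases h1 : Fac a.1 b.1
  · obtain ⟨v, hv⟩ := h1
    have hN := a.2
    rw [hv, normal_pr] at hN
    exact ⟨⟨v, hN.2.2.1⟩, Or.inr (Or.inl hv)⟩
  · by_cases h2 : Fac b.1 a.1
    · obtain ⟨v, hv⟩ := h2
      have hN := b.2
      rw [hv, normal_pr] at hN
      exact ⟨⟨v, hN.2.2.1⟩, Or.inr (Or.inr hv)⟩
    · exact ⟨⟨pr a.1 b.1, normal_pr.2 ⟨fun h => hab (Subtype.ext h), a.2, b.2, h1, h2⟩⟩,
        Or.inl rfl⟩

theorem top_inj {a b c d x : Pt α} (h1 : Top a b x) (h2 : Top c d x) :
    (a = c ∧ b = d) ∨ (a = d ∧ b = c) := by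
  have e1 : x.1 = pr a.1 b.1 := h1
  have e2 : x.1 = pr c.1 d.1 := h2
  rcases pr_inj (e1.symm.trans e2) with ⟨h, h'⟩ | ⟨h, h'⟩
  · exact Or.inl ⟨Subtype.ext h, Subtype.ext h'⟩
  · exact Or.inr ⟨Subtype.ext h, Subtype.ext h'⟩

theorem top_unique {a b c d : Pt α} (h1 : Top a b c) (h2 : Blk a b d) : c = d := by
  have hN := c.2
  have e1 : c.1 = pr a.1 b.1 := h1
  rw [e1, normal_pr] at hN
  rcases h2 with h2 | h2 | h2
  · have e2 : d.1 = pr a.1 b.1 := h2
    exact Subtype.ext (e1.trans e2.symm)
  · exact absurd ⟨d.1, h2⟩ hN.2.2.2.1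
  · exact absurd ⟨d.1, h2⟩ hN.2.2.2.2

theorem blk_unique {a b c d : Pt α} (h1 : Blk a b c) (h2 : Blk a b d) : c = d := by
  rcases h1 with h | h | h
  · exact top_unique h h2
  · rcases h2 with h' | h' | h'
    · exact (top_unique h' (Or.inr (Or.inl h))).symm
    · rcases top_inj h h' with ⟨_, e⟩ | ⟨e1, e2⟩
      · exact e
      · exact e2.trans e1
    · have := h.size
      have := h'.size
      omega
  · rcases h2 with h' | h' | h'
    · exact (top_unique h' (Or.inr (Or.inr h))).symm
    · have := h.size
      have := h'.size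
      omega
    · rcases top_inj h h' with ⟨_, e⟩ | ⟨e1, e2⟩
      · exact e
      · exact e2.trans e1

/-- There is no Pasch configuration. -/
theorem no_pasch {a b c p q w : Pt α} (h1 : Blk a b p) (h2 : Blk b c q) (h3 : Blk a q w)
    (h4 : Blk p c w) (hac : a ≠ c) : False := by
  have hpq : p ≠ q := by
    rintro rfl
    exact hac (blk_unique h1.rot h2.rot.rot.swap)
  have hbw : b ≠ w := by
    rintro rfl
    exact hac (blk_unique h3.rot h2.rot.rot)
  have n1 := h1.ne
  have n2 := h1.rot.ne
  have n3 := h1.rot.rot.ne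
  have n4 := h2.ne
  have n5 := h2.rot.ne
  have n6 := h2.rot.rot.ne
  have n7 := h3.ne
  have n8 := h3.rot.ne
  have n9 := h3.rot.rot.ne
  have m1 := h4.ne
  have m2 := h4.rot.ne
  have m3 := h4.rot.rot.ne
  rcases h1 with h1 | h1 | h1 <;> rcases h2 with h2 | h2 | h2 <;>
    rcases h3 with h3 | h3 | h3 <;> rcases h4 with h4 | h4 | h4 <;>
    have s1 := h1.size <;> have s2 := h2.size <;> have s3 := h3.size <;> have s4 := h4.size <;>
    first
    | omega
    | (rcases top_inj h1 h2 with ⟨e, e'⟩ | ⟨e, e'⟩ <;> simp_all)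
    | (rcases top_inj h1 h3 with ⟨e, e'⟩ | ⟨e, e'⟩ <;> simp_all)
    | (rcases top_inj h1 h4 with ⟨e, e'⟩ | ⟨e, e'⟩ <;> simp_all)
    | (rcases top_inj h2 h3 with ⟨e, e'⟩ | ⟨e, e'⟩ <;> simp_all)
    | (rcases top_inj h2 h4 with ⟨e, e'⟩ | ⟨e, e'⟩ <;> simp_all)
    | (rcases top_inj h3 h4 with ⟨e, e'⟩ | ⟨e, e'⟩ <;> simp_all)

/-! ## The free Steiner loop -/

/-- The third point of the triple through two different points. -/
noncomputable def third {a b : Pt α} (h : a ≠ b) : Pt α := Classical.choose (blk_exists h)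

theorem third_spec {a b : Pt α} (h : a ≠ b) : Blk a b (third h) := Classical.choose_spec _

/-- The free Steiner loop on `α`: the points and an identity element. -/
inductive FS (α : Type u) : Type u
  | e : FS α
  | pt : Pt α → FS α

instance : One (FS α) := ⟨FS.e⟩

open Classical in
/-- Multiplication in the free Steiner loop. -/
noncomputable def fmul : FS α → FS α → FS α
  | FS.e, y => y
  | FS.pt a, FS.e => FS.pt a
  | FS.pt a, FS.pt b => if h : a = b then FS.e else FS.pt (third h)

noncomputable instance : Mul (FS α) := ⟨fmul⟩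

theorem some_mul_some_of_blk {a b c : Pt α} (h : Blk a b c) :
    FS.pt a * FS.pt b = FS.pt c := by
  have h0 := h.ne
  show fmul (FS.pt a) (FS.pt b) = FS.pt c
  simp only [fmul, dif_neg h0]
  exact congrArg FS.pt (blk_unique (third_spec h0) h)

theorem some_mul_self (a : Pt α) : FS.pt a * FS.pt a = (1 : FS α) := by
  show fmul (FS.pt a) (FS.pt a) = FS.e
  simp [fmul]

theorem one_mul_fs (x : FS α) : (1 : FS α) * x = x := rfl

theorem mul_one_fs (x : FS α) : x * (1 : FS α) = x := by
  cases x <;> rfl

theorem isSteinerLoop_fs : IsSteinerLoop (FS α) where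
  one_mul := one_mul_fs
  mul_comm := by
    intro x y
    rcases x with _ | a
    · rw [show (FS.e : FS α) = 1 from rfl, one_mul_fs, mul_one_fs]
    rcases y with _ | b
    · rw [show (FS.e : FS α) = 1 from rfl, one_mul_fs, mul_one_fs]
    by_cases h : a = b
    · rw [h]
    · have h1 := third_spec h
      rw [some_mul_some_of_blk h1, some_mul_some_of_blk h1.swap]
  mul_mul := by
    intro x y
    rcases x with _ | a
    · rfl
    rcases y with _ | b
    · rw [show (FS.e : FS α) = 1 from rfl, mul_one_fs, some_mul_self]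
    by_cases h : a = b
    · rw [h, some_mul_self, mul_one_fs]
    · have h1 := third_spec h
      rw [some_mul_some_of_blk h1, some_mul_some_of_blk h1.rot.rot.swap]

/-- In the free Steiner loop `x (y z) = (x y) z` only in the trivial cases. -/
theorem trivial_of_assoc {x y z : FS α} (h : x * (y * z) = (x * y) * z) :
    x = 1 ∨ y = 1 ∨ z = 1 ∨ x = y ∨ y = z ∨ x = z ∨ z = x * y := by
  rcases x with _ | a
  · exact Or.inl rfl
  rcases y with _ | b
  · exact Or.inr (Or.inl rfl)
  rcases z with _ | c
  · exact Or.inr (Or.inr (Or.inl rfl))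
  by_contra hcon
  simp only [not_or] at hcon
  obtain ⟨-, -, -, h1, h2, h3, h4⟩ := hcon
  have hab : a ≠ b := fun e => h1 (by rw [e])
  have hbc : b ≠ c := fun e => h2 (by rw [e])
  have hac : a ≠ c := fun e => h3 (by rw [e])
  have k1 := third_spec hab
  have k2 := third_spec hbc
  rw [some_mul_some_of_blk k1] at h h4
  rw [some_mul_some_of_blk k2] at h
  have hpc : third hab ≠ c := fun e => h4 (by rw [e])
  have haq : a ≠ third hbc := by
    intro e
    rw [← e] at k2
    exact hpc (blk_unique k1 k2.rot.rot)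
  have k3 := third_spec haq
  have k4 := third_spec hpc
  rw [some_mul_some_of_blk k3, some_mul_some_of_blk k4] at h
  have e : third haq = third hpc := FS.pt.inj h
  rw [← e] at k4
  exact no_pasch k1 k2 k3 k4 hac

theorem propagates_fs : AssociativityPropagates (FS α) := by
  intro x y z h
  have hS : IsSteinerLoop (FS α) := isSteinerLoop_fs
  have hp : ∀ p q : FS α, p = kl p q (true, false) := fun _ _ => rfl
  have hq : ∀ p q : FS α, q = kl p q (false, true) := fun _ _ => rfl
  have ho : ∀ p q : FS α, (1 : FS α) = kl p q (false, false) := fun _ _ => rfl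
  have hpq : ∀ p q : FS α, p * q = kl p q (true, true) := fun _ _ => rfl
  rcases trivial_of_assoc h with rfl | rfl | rfl | rfl | rfl | rfl | rfl
  · exact assoc_of_kl hS ⟨_, ho y z⟩ ⟨_, hp y z⟩ ⟨_, hq y z⟩
  · exact assoc_of_kl hS ⟨_, hp x z⟩ ⟨_, ho x z⟩ ⟨_, hq x z⟩
  · exact assoc_of_kl hS ⟨_, hp x y⟩ ⟨_, hq x y⟩ ⟨_, ho x y⟩
  · exact assoc_of_kl hS ⟨_, hp x z⟩ ⟨_, hp x z⟩ ⟨_, hq x z⟩
  · exact assoc_of_kl hS ⟨_, hp x y⟩ ⟨_, hq x y⟩ ⟨_, hq x y⟩
  · exact assoc_of_kl hS ⟨_, hp x y⟩ ⟨_, hq x y⟩ ⟨_, hp x y⟩
  · exact assoc_of_kl hS ⟨_, hp x y⟩ ⟨_, hq x y⟩ ⟨_, hpq x y⟩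

/-! ## The homomorphism onto a given Steiner loop -/

section Lift

variable {F : Type u} [Mul F] [One F]

/-- The value of a tree. -/
def ev (f : α → F) : Tr α → F
  | Tr.of x => f x
  | Tr.node a b => ev f a * ev f b

/-- The homomorphism from the free Steiner loop given by the images of the generators. -/
def lift (f : α → F) : FS α → F
  | FS.e => 1
  | FS.pt t => ev f t.1

variable (hF : IsSteinerLoop F) (f : α → F)

include hF

theorem ev_pr (a b : Tr α) : ev f (pr a b) = ev f a * ev f b := by
  rcases le_total a b with ab | ab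
  · rw [pr, min_eq_left ab, max_eq_right ab, ev]
  · rw [pr, min_eq_right ab, max_eq_left ab, ev, hF.mul_comm]

theorem ev_top {a b c : Pt α} (h : Top a b c) : ev f c.1 = ev f a.1 * ev f b.1 := by
  have e : c.1 = pr a.1 b.1 := h
  rw [e, ev_pr hF]

theorem ev_blk {a b c : Pt α} (h : Blk a b c) : ev f a.1 * ev f b.1 = ev f c.1 := by
  rcases h with h | h | h
  · exact (ev_top hF f h).symm
  · rw [ev_top hF f h, hF.mul_comm, hF.mul_mul]
  · rw [ev_top hF f h, hF.mul_mul]

theorem lift_mul (x y : FS α) : lift f (x * y) = lift f x * lift f y := by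
  rcases x with _ | a
  · rw [show (FS.e : FS α) = 1 from rfl, one_mul_fs]
    exact (hF.one_mul _).symm
  rcases y with _ | b
  · rw [show (FS.e : FS α) = 1 from rfl, mul_one_fs]
    exact (mul_one' hF _).symm
  by_cases h : a = b
  · subst h
    rw [some_mul_self]
    exact (sq hF _).symm
  · rw [some_mul_some_of_blk (third_spec h)]
    exact (ev_blk hF f (third_spec h)).symm

end Lift

/-- **Every Steiner loop is a homomorphic image of a Steiner loop in which associativity
propagates.** Moreover the cover `X` can be chosen such that `x (y z) = (x y) z` holds in `X` only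
if `x`, `y` or `z` is `1`, or two of them are equal, or `z = x y`. -/
theorem result (F : Type u) [Mul F] [One F] (hF : IsSteinerLoop F) :
    ∃ (X : Type u) (_ : Mul X) (_ : One X), IsSteinerLoop X ∧ AssociativityPropagates X ∧
      (∀ x y z : X, x * (y * z) = (x * y) * z →
        x = 1 ∨ y = 1 ∨ z = 1 ∨ x = y ∨ y = z ∨ x = z ∨ z = x * y) ∧
      ∃ φ : X → F, (∀ x y : X, φ (x * y) = φ x * φ y) ∧ φ 1 = 1 ∧ Function.Surjective φ := by
  refine ⟨FS F, inferInstance, inferInstance, isSteinerLoop_fs, propagates_fs,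
    fun x y z h => trivial_of_assoc h, lift id, lift_mul hF id, rfl, ?_⟩
  intro x
  exact ⟨FS.pt ⟨Tr.of x, trivial⟩, rfl⟩

end Pool.Agent.Results.MP_b3a441_al.FreeSteinerCover
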